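import Pool.Agent.Q227.SK.Math
import Pool.Agent.H634R2.Clique

/-!
# Balanced skew partitions: the instances
-/

set_option autoImplicit false

namespace Pool.Agent.Q227.SK

open Pool.Agent.NPC Pool.Agent.H679R2 Pool.Agent.NPC.H634R2

/-- A block of codes. -/
def blk (a n : ℕ) : List Cd := (List.range n).map fun i => (a, i, 0)

theorem mem_blk {a n : ℕ} {v : Cd} : v ∈ blk a n ↔ v.1 = a ∧ v.2.1 < n ∧ v.2.2 = 0 := by
  obtain ⟨x, y, z⟩ := v
  simp only [blk, List.mem_map, List.mem_range, Prod.mk.injEq]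
  constructor
  · rintro ⟨i, hi, rfl, rfl, rfl⟩
    exact ⟨rfl, hi, rfl⟩
  · rintro ⟨rfl, h, rfl⟩
    exact ⟨y, h, rfl, rfl, rfl⟩

theorem blk_nodup (a n : ℕ) : (blk a n).Nodup :=
  List.nodup_range.map fun i j h => by simpa using h

theorem blk_length (a n : ℕ) : (blk a n).length = n := by simp [blk]

/-- The codes of the main instance. -/
def HL (n w z : ℕ) (E : List (ℕ × ℕ)) : List Cd :=
  blk 0 n ++ (blk 1 w ++ (E.map (fun e => ((2, e) : Cd)) ++ blk 3 z))

/-- The codes of the complete bipartite graph with isolated vertices. -/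
def CL (s z : ℕ) : List Cd := blk 1 s ++ (blk 2 s ++ blk 3 z)

theorem mem_HL {n w z : ℕ} {E : List (ℕ × ℕ)} {v : Cd} : v ∈ HL n w z E ↔
    (v.1 = 0 ∧ v.2.1 < n ∧ v.2.2 = 0) ∨ (v.1 = 1 ∧ v.2.1 < w ∧ v.2.2 = 0) ∨
      (v.1 = 2 ∧ v.2 ∈ E) ∨ (v.1 = 3 ∧ v.2.1 < z ∧ v.2.2 = 0) := by
  have : v ∈ E.map (fun e => ((2, e) : Cd)) ↔ v.1 = 2 ∧ v.2 ∈ E := by
    obtain ⟨x, y⟩ := v
    simp only [List.mem_map, Prod.mk.injEq]
    constructor
    · rintro ⟨e, he, rfl, rfl⟩
      exact ⟨rfl, he⟩
    · rintro ⟨rfl, h⟩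
      exact ⟨y, h, rfl, rfl⟩
  unfold HL
  rw [List.mem_append, List.mem_append, List.mem_append, mem_blk, mem_blk, mem_blk, this]

theorem HL_nodup {n w z : ℕ} {E : List (ℕ × ℕ)} (hE : E.Nodup) : (HL n w z E).Nodup := by
  have h2 : (E.map (fun e => ((2, e) : Cd))).Nodup := hE.map fun i j h => by simpa using h
  have hm : ∀ v ∈ E.map (fun e => ((2, e) : Cd)), v.1 = 2 := by
    intro v hv
    obtain ⟨e, _, rfl⟩ := List.mem_map.1 hv
    rfl
  unfold HL
  refine (blk_nodup 0 n).append ((blk_nodup 1 w).append (h2.append (blk_nodup 3 z) ?_) ?_) ?_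
  · intro v h1 h3
    have := hm v h1
    have := (mem_blk.1 h3).1
    omega
  · intro v h1 h3
    have := (mem_blk.1 h1).1
    rcases List.mem_append.1 h3 with h | h
    · have := hm v h
      omega
    · have := (mem_blk.1 h).1
      omega
  · intro v h1 h3
    have := (mem_blk.1 h1).1
    rcases List.mem_append.1 h3 with h | h
    · have := (mem_blk.1 h).1
      omega
    · rcases List.mem_append.1 h with h | h
      · have := hm v h
        omega
      · have := (mem_blk.1 h).1
        omega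

theorem HL_length {n w z : ℕ} {E : List (ℕ × ℕ)} : (HL n w z E).length = n + (w + (E.length + z)) := by
  simp [HL, blk_length]

theorem mem_CL {s z : ℕ} {v : Cd} : v ∈ CL s z ↔
    (v.1 = 1 ∧ v.2.1 < s ∧ v.2.2 = 0) ∨ (v.1 = 2 ∧ v.2.1 < s ∧ v.2.2 = 0) ∨
      (v.1 = 3 ∧ v.2.1 < z ∧ v.2.2 = 0) := by
  unfold CL
  rw [List.mem_append, List.mem_append, mem_blk, mem_blk, mem_blk]

theorem CL_nodup {s z : ℕ} : (CL s z).Nodup := by
  unfold CL
  refine (blk_nodup 1 s).append ((blk_nodup 2 s).append (blk_nodup 3 z) ?_) ?_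
  · intro v h1 h3
    have := (mem_blk.1 h1).1
    have := (mem_blk.1 h3).1
    omega
  · intro v h1 h3
    have := (mem_blk.1 h1).1
    rcases List.mem_append.1 h3 with h | h
    · have := (mem_blk.1 h).1
      omega
    · have := (mem_blk.1 h).1
      omega

theorem CL_length {s z : ℕ} : (CL s z).length = s + (s + z) := by
  simp [CL, blk_length]

/-- A skew partition of balanced size exists. -/
def HasBal (c : ℝ) (L : List Cd) : Prop :=
  ∃ A B C D : Set {v : Cd // v ∈ L}, IsBalanced c (SG L) A B C D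

/-- Calibration. -/
theorem hasBal_CL {c : ℝ} (hc : 4 ≤ c) {s N : ℕ} (hs : 0 < s) (hN : 4 * s ≤ N) :
    HasBal c (CL s (N - 2 * s)) ↔ (N : ℝ) ≤ c * s := by
  have hlen : (CL s (N - 2 * s)).length = N := by rw [CL_length]; omega
  constructor
  · rintro ⟨A, B, C, D, h⟩
    obtain ⟨X, Y, ⟨hX, hY, hXY⟩, h1, h2⟩ := bic_of_balanced CL_nodup h
    rw [hlen] at h1 h2
    have hNpos : (0 : ℝ) < N / c := by
      have : (0 : ℝ) < N := by
        have : 0 < N := by omega
        exact_mod_cast this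
      positivity
    obtain ⟨y₀, hy₀⟩ : Y.Nonempty := Finset.card_pos.1 (by
      have : (0 : ℝ) < Y.card := hNpos.trans_le h2
      exact_mod_cast this)
    have h3 : X ⊆ (blk 1 s).toFinset := by
      intro x hx
      have h4 := half_iff.1 (hXY x hx y₀ hy₀)
      have h5 := mem_CL.1 (List.mem_toFinset.1 (hX hx))
      rw [List.mem_toFinset, mem_blk]
      omega
    have h4 := Finset.card_le_card h3
    rw [List.toFinset_card_of_nodup (blk_nodup 1 s), blk_length] at h4
    have h5 : (N : ℝ) / c ≤ s := h1.trans (by exact_mod_cast h4)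
    rw [div_le_iff₀ (by linarith)] at h5
    linarith
  · intro h
    refine balanced_of_bic CL_nodup (t := s) hs (by linarith) (by rw [hlen]; exact hN)
      (by rw [hlen]; exact h) (X := (blk 1 s).toFinset) (Y := (blk 2 s).toFinset)
      (Z := (blk 3 s).toFinset) ?_ ?_ ?_ ⟨?_, ?_, ?_⟩ ?_ ?_
    · intro v hv
      rw [List.mem_toFinset, mem_blk] at hv
      rw [List.mem_toFinset, mem_CL]
      omega
    · intro v hv
      rw [List.mem_toFinset, mem_blk] at hv
      exact hv.1
    · rw [List.toFinset_card_of_nodup (blk_nodup 3 s), blk_length]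
    · intro v hv
      rw [List.mem_toFinset, mem_blk] at hv
      rw [List.mem_toFinset, mem_CL]
      omega
    · intro v hv
      rw [List.mem_toFinset, mem_blk] at hv
      rw [List.mem_toFinset, mem_CL]
      omega
    · intro x hx y hy
      rw [List.mem_toFinset, mem_blk] at hx hy
      rw [half_iff]
      omega
    · rw [List.toFinset_card_of_nodup (blk_nodup 1 s), blk_length]
    · rw [List.toFinset_card_of_nodup (blk_nodup 2 s), blk_length]

/-! ### Pairs -/

/-- The increasing pairs of members of a set. -/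
def pairsOf (K : Finset ℕ) : Finset (ℕ × ℕ) := (K ×ˢ K).filter fun p => p.1 < p.2

theorem mem_pairsOf {K : Finset ℕ} {p : ℕ × ℕ} :
    p ∈ pairsOf K ↔ p.1 ∈ K ∧ p.2 ∈ K ∧ p.1 < p.2 := by
  simp [pairsOf, and_assoc]

theorem card_pairsOf (K : Finset ℕ) : (pairsOf K).card = K.card.choose 2 := by
  induction K using Finset.induction_on_max with
  | empty => rfl
  | insert a K ha ih =>
    have hna : a ∉ K := fun h => lt_irrefl _ (ha a h)
    have h1 : pairsOf (insert a K) = pairsOf K ∪ K.image (fun x => (x, a)) := by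
      ext p
      rw [Finset.mem_union, mem_pairsOf, mem_pairsOf, Finset.mem_image, Finset.mem_insert,
        Finset.mem_insert]
      constructor
      · rintro ⟨h1 | h1, h2 | h2, h3⟩
        · omega
        · have := ha _ h2
          omega
        · exact Or.inr ⟨p.1, h1, Prod.ext rfl h2.symm⟩
        · exact Or.inl ⟨h1, h2, h3⟩
      · rintro (⟨h1, h2, h3⟩ | ⟨x, hx, rfl⟩)
        · exact ⟨Or.inr h1, Or.inr h2, h3⟩
        · exact ⟨Or.inr hx, Or.inl rfl, ha x hx⟩
    have h2 : Disjoint (pairsOf K) (K.image (fun x => (x, a))) := by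
      rw [Finset.disjoint_left]
      intro p hp hp2
      rw [mem_pairsOf] at hp
      obtain ⟨x, _, rfl⟩ := Finset.mem_image.1 hp2
      exact hna hp.2.1
    have h3 : (K.card + 1).choose 2 = K.card + K.card.choose 2 := by
      rw [Nat.choose_succ_succ' _ 1, Nat.choose_one_right]
    rw [h1, Finset.card_union_of_disjoint h2, ih, Finset.card_insert_of_notMem hna,
      Finset.card_image_of_injective _ (fun x y h => (Prod.mk.inj h).1), h3]
    omega

theorem choose_two_lt {a b : ℕ} (hb : 2 ≤ b) (h : a < b) : a.choose 2 < b.choose 2 := by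
  calc a.choose 2 ≤ (b - 1).choose 2 := Nat.choose_le_choose 2 (by omega)
    _ < b.choose 2 := by
      obtain ⟨b, rfl⟩ : ∃ b', b = b' + 1 := ⟨b - 1, by omega⟩
      have h1 : (b + 1).choose 2 = b + b.choose 2 := by
        rw [Nat.choose_succ_succ' _ 1, Nat.choose_one_right]
      rw [h1, Nat.add_sub_cancel]
      omega

/-- Large complete bipartite subgraphs and cliques. -/
theorem clique_of_bic {n w z k : ℕ} {E : List (ℕ × ℕ)} (hE : ∀ e ∈ E, e.1 < e.2 ∧ e.2 < n)
    (hk : 2 ≤ k) (hw : n + w = k.choose 2 + k) {X Y : Finset Cd}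
    (hXY : Bic (HL n w z E) X Y) (hX : k.choose 2 ≤ X.card) (hY : k.choose 2 ≤ Y.card) :
    ∃ K ⊆ Finset.range n, K.card = k ∧ ∀ p ∈ pairsOf K, p ∈ E := by
  obtain ⟨hXL, hYL, hadj⟩ := hXY
  have ht : 0 < k.choose 2 := Nat.choose_pos hk
  obtain ⟨x₀, hx₀⟩ : X.Nonempty := Finset.card_pos.1 (by omega)
  obtain ⟨y₀, hy₀⟩ : Y.Nonempty := Finset.card_pos.1 (by omega)
  have hYt : ∀ y ∈ Y, y.1 = 2 ∧ y.2 ∈ E := by
    intro y hy
    have h1 := half_iff.1 (hadj x₀ hx₀ y hy)
    have h2 := mem_HL.1 (List.mem_toFinset.1 (hYL hy))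
    refine ⟨h1.1, ?_⟩
    rcases h2 with h | h | h | h
    · omega
    · omega
    · exact h.2
    · omega
  have hXt : ∀ x ∈ X, (x.1 = 0 ∧ x.2.1 < n ∧ x.2.2 = 0) ∨ (x.1 = 1 ∧ x.2.1 < w ∧ x.2.2 = 0) := by
    intro x hx
    have h1 := half_iff.1 (hadj x hx y₀ hy₀)
    have h2 := mem_HL.1 (List.mem_toFinset.1 (hXL hx))
    omega
  -- the vertices
  set S : Finset ℕ := (Finset.range n).filter (fun v => ((0, v, 0) : Cd) ∈ X) with hS
  have hXsub : X ⊆ S.image (fun v => ((0, v, 0) : Cd)) ∪ (blk 1 w).toFinset := by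
    intro x hx
    rw [Finset.mem_union, Finset.mem_image, List.mem_toFinset, mem_blk]
    rcases hXt x hx with h | h
    · left
      have hx' : ((0, x.2.1, 0) : Cd) = x := by
        obtain ⟨a, b, c⟩ := x
        simp only at h ⊢
        rw [h.1, h.2.2]
      refine ⟨x.2.1, ?_, hx'⟩
      rw [hS, Finset.mem_filter, Finset.mem_range, hx']
      exact ⟨h.2.1, hx⟩
    · exact Or.inr h
  have hXc := (Finset.card_le_card hXsub).trans (Finset.card_union_le _ _)
  rw [List.toFinset_card_of_nodup (blk_nodup 1 w), blk_length] at hXc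
  have hSc := Finset.card_image_le (s := S) (f := fun v => ((0, v, 0) : Cd))
  set K : Finset ℕ := Finset.range n \ S with hK
  have hSn : S ⊆ Finset.range n := Finset.filter_subset _ _
  have hKc : K.card = n - S.card := by
    rw [hK, Finset.card_sdiff_of_subset hSn, Finset.card_range]
  have hKk : K.card ≤ k := by omega
  have hYsub : Y.image (fun y => y.2) ⊆ pairsOf K := by
    intro p hp
    obtain ⟨y, hy, rfl⟩ := Finset.mem_image.1 hp
    have h1 := hYt y hy
    have h2 := hE _ h1.2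
    rw [mem_pairsOf, hK, Finset.mem_sdiff, Finset.mem_sdiff, Finset.mem_range, Finset.mem_range]
    refine ⟨⟨by omega, fun h => ?_⟩, ⟨h2.2, fun h => ?_⟩, h2.1⟩
    · rw [hS, Finset.mem_filter] at h
      have := half_iff.1 (hadj _ h.2 y hy)
      simp at this
    · rw [hS, Finset.mem_filter] at h
      have := half_iff.1 (hadj _ h.2 y hy)
      simp at this
  have hYc : (Y.image (fun y => y.2)).card = Y.card := by
    refine Finset.card_image_of_injOn fun a ha b hb hab => ?_
    exact Prod.ext ((hYt a ha).1.trans (hYt b hb).1.symm) hab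
  have hYK := Finset.card_le_card hYsub
  rw [hYc, card_pairsOf] at hYK
  have hKeq : K.card = k := by
    by_contra hne
    have := choose_two_lt hk (lt_of_le_of_ne hKk hne)
    omega
  refine ⟨K, Finset.sdiff_subset, hKeq, ?_⟩
  have heq : Y.image (fun y => y.2) = pairsOf K := by
    refine Finset.eq_of_subset_of_card_le hYsub ?_
    rw [hYc, card_pairsOf, hKeq]
    exact hY
  intro p hp
  rw [← heq] at hp
  obtain ⟨y, hy, rfl⟩ := Finset.mem_image.1 hp
  exact (hYt y hy).2

theorem bic_of_clique {n w z k : ℕ} {E : List (ℕ × ℕ)}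
    (hw : n + w = k.choose 2 + k) {K : Finset ℕ} (hK : K ⊆ Finset.range n)
    (hKc : K.card = k) (hKE : ∀ p ∈ pairsOf K, p ∈ E) :
    ∃ X Y : Finset Cd, Bic (HL n w z E) X Y ∧ k.choose 2 ≤ X.card ∧ k.choose 2 ≤ Y.card := by
  refine ⟨(Finset.range n \ K).image (fun v => ((0, v, 0) : Cd)) ∪ (blk 1 w).toFinset,
    (pairsOf K).image (fun p => ((2, p) : Cd)), ⟨?_, ?_, ?_⟩, ?_, ?_⟩
  · intro x hx
    rw [List.mem_toFinset, mem_HL]
    rcases Finset.mem_union.1 hx with h | h
    · obtain ⟨v, hv, rfl⟩ := Finset.mem_image.1 h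
      rw [Finset.mem_sdiff, Finset.mem_range] at hv
      exact Or.inl ⟨rfl, hv.1, rfl⟩
    · rw [List.mem_toFinset, mem_blk] at h
      exact Or.inr (Or.inl h)
  · intro x hx
    rw [List.mem_toFinset, mem_HL]
    obtain ⟨p, hp, rfl⟩ := Finset.mem_image.1 hx
    exact Or.inr (Or.inr (Or.inl ⟨rfl, hKE p hp⟩))
  · intro x hx y hy
    obtain ⟨p, hp, rfl⟩ := Finset.mem_image.1 hy
    rw [mem_pairsOf] at hp
    rw [half_iff]
    refine ⟨rfl, ?_⟩
    rcases Finset.mem_union.1 hx with h | h
    · obtain ⟨v, hv, rfl⟩ := Finset.mem_image.1 h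
      rw [Finset.mem_sdiff] at hv
      refine Or.inr ⟨rfl, ?_, ?_⟩
      · rintro rfl
        exact hv.2 hp.1
      · rintro rfl
        exact hv.2 hp.2.1
    · rw [List.mem_toFinset, mem_blk] at h
      exact Or.inl h.1
  · rw [Finset.card_union_of_disjoint, Finset.card_image_of_injective,
      Finset.card_sdiff_of_subset hK, Finset.card_range, hKc,
      List.toFinset_card_of_nodup (blk_nodup 1 w), blk_length]
    · have : k ≤ n := by
        rw [← hKc, ← Finset.card_range n]
        exact Finset.card_le_card hK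
      omega
    · intro a b hab
      simpa using hab
    · rw [Finset.disjoint_left]
      intro x hx hx2
      obtain ⟨v, _, rfl⟩ := Finset.mem_image.1 hx
      rw [List.mem_toFinset, mem_blk] at hx2
      simp at hx2
  · rw [Finset.card_image_of_injective _ (fun a b hab => by simpa using hab), card_pairsOf, hKc]

/-- Skew partitions of balanced size and cliques. -/
theorem hasBal_HL {c : ℝ} (hc : 4 ≤ c) {n w k N : ℕ} {E : List (ℕ × ℕ)} (hEn : E.Nodup)
    (hE : ∀ e ∈ E, e.1 < e.2 ∧ e.2 < n) (hk : 2 ≤ k) (hw : n + w = k.choose 2 + k)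
    (hE3 : n + w + E.length ≤ 3 * k.choose 2) (hN : (N : ℝ) ≤ c * k.choose 2)
    (hN1 : c * k.choose 2 < N + 1) :
    HasBal c (HL n w (N - (n + w + E.length)) E) ↔
      ∃ K ⊆ Finset.range n, K.card = k ∧ ∀ p ∈ pairsOf K, p ∈ E := by
  have ht : 0 < k.choose 2 := Nat.choose_pos hk
  have hN4 : 4 * k.choose 2 ≤ N := by
    have h1 : (4 : ℝ) * k.choose 2 < N + 1 :=
      lt_of_le_of_lt (mul_le_mul_of_nonneg_right hc (by positivity)) hN1
    have h2 : 4 * k.choose 2 < N + 1 := by exact_mod_cast h1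
    omega
  have hlen : (HL n w (N - (n + w + E.length)) E).length = N := by
    rw [HL_length]
    omega
  constructor
  · rintro ⟨A, B, C, D, h⟩
    obtain ⟨X, Y, hXY, h1, h2⟩ := bic_of_balanced (HL_nodup hEn) h
    rw [hlen] at h1 h2
    have h3 : ((k.choose 2 : ℕ) : ℝ) - 1 < N / c := by
      rw [lt_div_iff₀ (by linarith)]
      nlinarith
    have h4 : ∀ a : ℕ, (N : ℝ) / c ≤ a → k.choose 2 ≤ a := by
      intro a ha
      have h5 : ((k.choose 2 : ℕ) : ℝ) < a + 1 := by linarith
      have h6 : k.choose 2 < a + 1 := by exact_mod_cast h5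
      omega
    exact clique_of_bic hE hk hw hXY (h4 _ h1) (h4 _ h2)
  · rintro ⟨K, hK, hKc, hKE⟩
    obtain ⟨X, Y, hXY, h1, h2⟩ := bic_of_clique (z := N - (n + w + E.length)) hw hK hKc hKE
    refine balanced_of_bic (HL_nodup hEn) (t := k.choose 2) ht (by linarith)
      (by rw [hlen]; exact hN4) (by rw [hlen]; exact hN)
      (Z := (blk 3 (k.choose 2)).toFinset) ?_ ?_ ?_ hXY h1 h2
    · intro v hv
      rw [List.mem_toFinset, mem_blk] at hv
      rw [List.mem_toFinset, mem_HL]
      omega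
    · intro v hv
      rw [List.mem_toFinset, mem_blk] at hv
      exact hv.1
    · rw [List.toFinset_card_of_nodup (blk_nodup 3 _), blk_length]

end Pool.Agent.Q227.SK
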