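import Pool.Agent.Q227.MkG

/-!
# Balanced skew partitions of bipartite graphs
-/

set_option autoImplicit false

namespace Pool.Agent.Q227.SK

open Pool.Agent.NPC Pool.Agent.H679R2

/-- `A`, `B`, `C`, `D` form a skew partition of `G`. -/
def IsSkewPartition {V : Type} (G : SimpleGraph V) (A B C D : Set V) : Prop :=
  (A.Nonempty ∧ B.Nonempty ∧ C.Nonempty ∧ D.Nonempty) ∧
  (∀ v, v ∈ A ∨ v ∈ B ∨ v ∈ C ∨ v ∈ D) ∧
  (Disjoint A B ∧ Disjoint A C ∧ Disjoint A D ∧ Disjoint B C ∧ Disjoint B D ∧ Disjoint C D) ∧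
  (∀ a ∈ A, ∀ b ∈ B, ¬ G.Adj a b) ∧ (∀ u ∈ C, ∀ v ∈ D, G.Adj u v)

/-- `A`, `B`, `C`, `D` form a skew partition of `G` of balanced size with constant `c`. -/
def IsBalanced {V : Type} (c : ℝ) (G : SimpleGraph V) (A B C D : Set V) : Prop :=
  IsSkewPartition G A B C D ∧ (Nat.card V : ℝ) / c ≤ A.ncard ∧ (Nat.card V : ℝ) / c ≤ B.ncard ∧
    (Nat.card V : ℝ) / c ≤ C.ncard ∧ (Nat.card V : ℝ) / c ≤ D.ncard

/-- Codes of vertices. -/
abbrev Cd : Type := ℕ × ℕ × ℕ

/-- One half of the adjacency: the first vertex is on the left side, the second one is on the right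
side. -/
def half (x y : Cd) : Bool :=
  decide (y.1 = 2) && (decide (x.1 = 1) ||
    (decide (x.1 = 0) && (!decide (x.2.1 = y.2.1) && !decide (x.2.1 = y.2.2))))

theorem half_iff {x y : Cd} : half x y = true ↔ y.1 = 2 ∧ (x.1 = 1 ∨
    (x.1 = 0 ∧ x.2.1 ≠ y.2.1 ∧ x.2.1 ≠ y.2.2)) := by
  simp [half]

/-- The adjacency. -/
def adjS (x y : Cd) : Bool := half x y || half y x

theorem adjS_symm (x y : Cd) (h : adjS x y = true) : adjS y x = true := by
  unfold adjS at h ⊢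
  rwa [Bool.or_comm]

theorem adjS_irrefl (x : Cd) : adjS x x = false := by
  by_contra h
  rw [Bool.not_eq_false] at h
  unfold adjS at h
  rw [Bool.or_self, half_iff] at h
  omega

theorem adjS_iff {x y : Cd} : adjS x y = true ↔ half x y = true ∨ half y x = true := by
  unfold adjS
  rw [Bool.or_eq_true]

/-- The graph on a list of codes. -/
abbrev SG (L : List Cd) : SimpleGraph {v : Cd // v ∈ L} := GrL L adjS adjS_symm adjS_irrefl

theorem SG_adj {L : List Cd} {x y : {v : Cd // v ∈ L}} :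
    (SG L).Adj x y ↔ half x.1 y.1 = true ∨ half y.1 x.1 = true := adjS_iff

/-- A complete bipartite subgraph with `X` on the left side and `Y` on the right side. -/
def Bic (L : List Cd) (X Y : Finset Cd) : Prop :=
  X ⊆ L.toFinset ∧ Y ⊆ L.toFinset ∧ ∀ x ∈ X, ∀ y ∈ Y, half x y = true

theorem card_SG {L : List Cd} (hL : L.Nodup) : Nat.card {v : Cd // v ∈ L} = L.length := by
  rw [Nat.card_eq_fintype_card, Fintype.card_of_subtype L.toFinset (by simp),
    List.toFinset_card_of_nodup hL]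

theorem image_card {L : List Cd} (S : Set {v : Cd // v ∈ L}) :
    ∃ X : Finset Cd, X ⊆ L.toFinset ∧ X.card = S.ncard ∧
      ∀ x, x ∈ X ↔ ∃ h : x ∈ L, (⟨x, h⟩ : {v : Cd // v ∈ L}) ∈ S := by
  classical
  have hf : (Subtype.val '' S).Finite := (L.toFinset.finite_toSet).subset (by
    rintro _ ⟨x, _, rfl⟩
    simpa using x.2)
  refine ⟨hf.toFinset, ?_, ?_, ?_⟩
  · intro x hx
    rw [Set.Finite.mem_toFinset] at hx
    obtain ⟨y, _, rfl⟩ := hx
    simpa using y.2
  · rw [← Set.ncard_eq_toFinset_card _ hf, Set.ncard_image_of_injective _ Subtype.val_injective]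
  · intro x
    rw [Set.Finite.mem_toFinset]
    constructor
    · rintro ⟨y, hy, rfl⟩
      exact ⟨y.2, hy⟩
    · rintro ⟨h, hx⟩
      exact ⟨_, hx, rfl⟩

/-- A skew partition of balanced size contains a large complete bipartite graph. -/
theorem bic_of_balanced {L : List Cd} (hL : L.Nodup) {c : ℝ} {A B C D : Set {v : Cd // v ∈ L}}
    (h : IsBalanced c (SG L) A B C D) :
    ∃ X Y : Finset Cd, Bic L X Y ∧ (L.length : ℝ) / c ≤ X.card ∧ (L.length : ℝ) / c ≤ Y.card := by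
  obtain ⟨⟨⟨_, _, ⟨u₀, hu₀⟩, ⟨v₀, hv₀⟩⟩, _, _, _, hCD⟩, _, _, hC, hD⟩ := h
  rw [card_SG hL] at hC hD
  obtain ⟨X, hX1, hX2, hX3⟩ := image_card C
  obtain ⟨Y, hY1, hY2, hY3⟩ := image_card D
  rw [← hX2] at hC
  rw [← hY2] at hD
  have key : ∀ u ∈ C, ∀ v ∈ D, half u.1 v.1 = true ∨ half v.1 u.1 = true :=
    fun u hu v hv => SG_adj.1 (hCD u hu v hv)
  rcases key _ hu₀ _ hv₀ with h0 | h0
  · refine ⟨X, Y, ⟨hX1, hY1, ?_⟩, hC, hD⟩
    intro x hx y hy
    obtain ⟨hxL, hxC⟩ := (hX3 x).1 hx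
    obtain ⟨hyL, hyD⟩ := (hY3 y).1 hy
    have h1 := key _ hxC _ hyD
    have h2 := key _ hu₀ _ hyD
    have h3 := key _ hxC _ hv₀
    simp only [half_iff] at h0 h1 h2 h3 ⊢
    omega
  · refine ⟨Y, X, ⟨hY1, hX1, ?_⟩, hD, hC⟩
    intro y hy x hx
    obtain ⟨hxL, hxC⟩ := (hX3 x).1 hx
    obtain ⟨hyL, hyD⟩ := (hY3 y).1 hy
    have h1 := key _ hxC _ hyD
    have h2 := key _ hu₀ _ hyD
    have h3 := key _ hxC _ hv₀
    simp only [half_iff] at h0 h1 h2 h3 ⊢
    omega

/-- From a large complete bipartite graph to a skew partition of balanced size. -/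
theorem balanced_of_bic {L : List Cd} (hL : L.Nodup) {c : ℝ} {t : ℕ} (ht : 0 < t) (hc : 0 < c)
    (h4 : 4 * t ≤ L.length) (hlen : (L.length : ℝ) ≤ c * t) {X Y Z : Finset Cd}
    (hZ : Z ⊆ L.toFinset) (hZ3 : ∀ z ∈ Z, z.1 = 3) (hZc : Z.card = t) (hXY : Bic L X Y)
    (hX : t ≤ X.card) (hY : t ≤ Y.card) :
    ∃ A B C D : Set {v : Cd // v ∈ L}, IsBalanced c (SG L) A B C D := by
  classical
  obtain ⟨X', hX', hXc⟩ := Finset.exists_subset_card_eq hX
  obtain ⟨Y', hY', hYc⟩ := Finset.exists_subset_card_eq hY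
  obtain ⟨hXL, hYL, hadj⟩ := hXY
  obtain ⟨x₀, hx₀⟩ : X'.Nonempty := Finset.card_pos.1 (by omega)
  obtain ⟨y₀, hy₀⟩ : Y'.Nonempty := Finset.card_pos.1 (by omega)
  have hXt : ∀ x ∈ X', x.1 ≤ 1 := by
    intro x hx
    have := half_iff.1 (hadj x (hX' hx) y₀ (hY' hy₀))
    omega
  have hYt : ∀ y ∈ Y', y.1 = 2 := fun y hy => (half_iff.1 (hadj x₀ (hX' hx₀) y (hY' hy))).1
  set R : Finset Cd := L.toFinset \ (X' ∪ Y' ∪ Z) with hR
  have hdXY : Disjoint X' Y' := Finset.disjoint_left.2 fun v h1 h2 => by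
    have := hXt v h1
    have := hYt v h2
    omega
  have hdXZ : Disjoint X' Z := Finset.disjoint_left.2 fun v h1 h2 => by
    have := hXt v h1
    have := hZ3 v h2
    omega
  have hdYZ : Disjoint Y' Z := Finset.disjoint_left.2 fun v h1 h2 => by
    have := hYt v h1
    have := hZ3 v h2
    omega
  have hRc : t ≤ R.card := by
    rw [hR, Finset.card_sdiff_of_subset (Finset.union_subset (Finset.union_subset
      (hX'.trans hXL) (hY'.trans hYL)) hZ), Finset.card_union_of_disjoint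
      (Finset.disjoint_union_left.2 ⟨hdXZ, hdYZ⟩), Finset.card_union_of_disjoint hdXY,
      List.toFinset_card_of_nodup hL]
    omega
  -- the sets on the vertices
  have hS : ∀ S : Finset Cd, S ⊆ L.toFinset → S.card =
      ({v : {v : Cd // v ∈ L} | v.1 ∈ S} : Set _).ncard := by
    intro S hS
    rw [← Set.ncard_image_of_injective _ Subtype.val_injective, ← Set.ncard_coe_finset]
    congr 1
    ext x
    simp only [Finset.mem_coe, Set.mem_image, Set.mem_setOf_eq]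
    constructor
    · intro hx
      exact ⟨⟨x, List.mem_toFinset.1 (hS hx)⟩, hx, rfl⟩
    · rintro ⟨v, hv, rfl⟩
      exact hv
  have hne : ∀ S : Finset Cd, S ⊆ L.toFinset → 0 < S.card →
      ({v : {v : Cd // v ∈ L} | v.1 ∈ S} : Set _).Nonempty := by
    intro S hS h0
    obtain ⟨x, hx⟩ := Finset.card_pos.1 h0
    exact ⟨⟨x, List.mem_toFinset.1 (hS hx)⟩, hx⟩
  have hRL : R ⊆ L.toFinset := Finset.sdiff_subset
  have hdisj : ∀ S T : Finset Cd, Disjoint S T →
      Disjoint ({v : {v : Cd // v ∈ L} | v.1 ∈ S} : Set _) {v | v.1 ∈ T} := by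
    intro S T h
    rw [Set.disjoint_left]
    intro v h1 h2
    exact Finset.disjoint_left.1 h h1 h2
  have hdR : Disjoint R (X' ∪ Y' ∪ Z) := Finset.sdiff_disjoint
  have hRX : Disjoint R X' := hdR.mono_right (Finset.subset_union_left.trans
    Finset.subset_union_left)
  have hRY : Disjoint R Y' := hdR.mono_right (Finset.subset_union_right.trans
    Finset.subset_union_left)
  have hRZ : Disjoint R Z := hdR.mono_right Finset.subset_union_right
  refine ⟨{v | v.1 ∈ Z}, {v | v.1 ∈ R}, {v | v.1 ∈ X'}, {v | v.1 ∈ Y'}, ⟨⟨hne Z hZ (by omega),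
    hne R hRL (by omega), hne X' (hX'.trans hXL) (by omega), hne Y' (hY'.trans hYL) (by omega)⟩,
    ?_, ⟨hdisj _ _ hRZ.symm, hdisj _ _ hdXZ.symm, hdisj _ _ hdYZ.symm, hdisj _ _ hRX,
      hdisj _ _ hRY, hdisj _ _ hdXY⟩, ?_, ?_⟩, ?_⟩
  · intro v
    by_cases h1 : v.1 ∈ Z
    · exact Or.inl h1
    by_cases h2 : v.1 ∈ X'
    · exact Or.inr (Or.inr (Or.inl h2))
    by_cases h3 : v.1 ∈ Y'
    · exact Or.inr (Or.inr (Or.inr h3))
    refine Or.inr (Or.inl ?_)
    change v.1 ∈ R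
    rw [hR, Finset.mem_sdiff, List.mem_toFinset]
    refine ⟨v.2, ?_⟩
    simp [h1, h2, h3]
  · intro a ha b _
    rw [SG_adj, half_iff, half_iff]
    have := hZ3 a.1 ha
    omega
  · intro u hu v hv
    rw [SG_adj]
    exact Or.inl (hadj _ (hX' hu) _ (hY' hv))
  · have hdiv : (L.length : ℝ) / c ≤ t := by
      rw [div_le_iff₀ hc]
      linarith
    rw [card_SG hL, ← hS Z hZ, ← hS R hRL, ← hS X' (hX'.trans hXL), ← hS Y' (hY'.trans hYL), hZc,
      hXc, hYc]
    exact ⟨hdiv, hdiv.trans (by exact_mod_cast hRc), hdiv, hdiv⟩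

/-- The graphs are bipartite. -/
theorem SG_colorable (L : List Cd) : (SG L).Colorable 2 := by
  refine ⟨SimpleGraph.Coloring.mk (fun v => if v.1.1 = 2 then (1 : Fin 2) else 0) ?_⟩
  intro u v huv
  rw [SG_adj, half_iff, half_iff] at huv
  rcases huv with h | h
  · have h1 : u.1.1 ≠ 2 := by omega
    rw [if_neg h1, if_pos h.1]
    decide
  · have h1 : v.1.1 ≠ 2 := by omega
    rw [if_neg h1, if_pos h.1]
    decide

end Pool.Agent.Q227.SK
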