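import Pool.Agent.Q227.SK.Inst
import Pool.Agent.Q227.Oracle

/-!
# Balanced skew partitions: the reduction
-/

set_option autoImplicit false

namespace Pool.Agent.Q227.SK

open Pool.Agent.NPC Pool.Agent.H679R2 Pool.Agent.NPC.H634R2

/-! ### Presented graphs -/

/-- Presented graphs. -/
abbrev PG : Type := List ℕ × List (ℕ × ℕ)

/-- A finite graph is perfect if every induced subgraph has the same chromatic number and clique
number. -/
def IsPerfect {V : Type} (G : SimpleGraph V) : Prop :=
  ∀ s : Set V, (G.induce s).chromaticNumber = (G.induce s).cliqueNum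

theorem isPerfect_of_isBipartite {V : Type} [Finite V] {G : SimpleGraph V} (h : G.Colorable 2) :
    IsPerfect G := by
  classical
  have := Fintype.ofFinite V
  intro s
  have : Fintype s := Fintype.ofFinite s
  refine le_antisymm ?_ ?_
  · have hH : (G.induce s).Colorable 2 :=
      SimpleGraph.Colorable.of_hom (SimpleGraph.Embedding.induce s).toHom h
    by_cases he : ∃ x y, (G.induce s).Adj x y
    · obtain ⟨x, y, hxy⟩ := he
      have h2 : 2 ≤ (G.induce s).cliqueNum := by
        have hc : (G.induce s).IsNClique 2 {x, y} := by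
          rw [SimpleGraph.isNClique_iff]
          refine ⟨?_, by rw [Finset.card_pair hxy.ne]⟩
          rw [Finset.coe_pair, SimpleGraph.isClique_iff]
          intro a ha b hb hab
          simp only [Set.mem_insert_iff, Set.mem_singleton_iff] at ha hb
          rcases ha with rfl | rfl <;> rcases hb with rfl | rfl
          · exact absurd rfl hab
          · exact hxy
          · exact hxy.symm
          · exact absurd rfl hab
        have := hc.isClique.card_le_cliqueNum
        rwa [hc.card_eq] at this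
      refine le_trans hH.chromaticNumber_le ?_
      exact_mod_cast h2
    · push Not at he
      rcases isEmpty_or_nonempty s with hs | hs
      · rw [SimpleGraph.chromaticNumber_eq_zero_of_isEmpty]
        exact zero_le
      · have h1 : (G.induce s).Colorable 1 := by
          refine ⟨SimpleGraph.Coloring.mk (fun _ => 0) ?_⟩
          intro v w hvw
          exact absurd hvw (he v w)
        refine le_trans h1.chromaticNumber_le ?_
        obtain ⟨x⟩ := hs
        have hc : (G.induce s).IsNClique 1 {x} := by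
          rw [SimpleGraph.isNClique_iff]
          simp
        have := hc.isClique.card_le_cliqueNum
        rw [hc.card_eq] at this
        exact_mod_cast this
  · exact SimpleGraph.cliqueNum_le_chromaticNumber

/-- The presented graph is bipartite and perfect. -/
def BipPerfect (I : PG) : Prop := (toGraph I).Colorable 2 ∧ IsPerfect (toGraph I)

/-- The presented graph has a skew partition of balanced size with constant `c`. -/
def HasBSP (c : ℝ) (I : PG) : Prop :=
  ∃ A B C D : Set {v : ℕ // v ∈ I.1}, IsBalanced c (toGraph I) A B C D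

theorem isBalanced_map {V W : Type} {G : SimpleGraph V} {H : SimpleGraph W} (e : G ≃g H) {c : ℝ}
    {A B C D : Set V} (h : IsBalanced c G A B C D) :
    IsBalanced c H (e '' A) (e '' B) (e '' C) (e '' D) := by
  obtain ⟨⟨⟨a1, a2, a3, a4⟩, h1, ⟨d1, d2, d3, d4, d5, d6⟩, h3, h4⟩, b1, b2, b3, b4⟩ := h
  have hcard : Nat.card W = Nat.card V := (Nat.card_congr e.toEquiv).symm
  have hd : ∀ {S T : Set V}, Disjoint S T → Disjoint (e '' S) (e '' T) :=
    fun h => (Set.disjoint_image_iff e.injective).2 h
  have hn : ∀ S : Set V, (e '' S).ncard = S.ncard :=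
    fun S => Set.ncard_image_of_injective _ e.injective
  refine ⟨⟨⟨a1.image _, a2.image _, a3.image _, a4.image _⟩, ?_,
    ⟨hd d1, hd d2, hd d3, hd d4, hd d5, hd d6⟩, ?_, ?_⟩, ?_⟩
  · intro w
    obtain ⟨v, rfl⟩ := e.surjective w
    simp only [Set.mem_image, EmbeddingLike.apply_eq_iff_eq, exists_eq_right]
    exact h1 v
  · rintro _ ⟨a, ha, rfl⟩ _ ⟨b, hb, rfl⟩
    rw [e.map_adj_iff]
    exact h3 a ha b hb
  · rintro _ ⟨a, ha, rfl⟩ _ ⟨b, hb, rfl⟩
    rw [e.map_adj_iff]
    exact h4 a ha b hb
  · rw [hcard, hn, hn, hn, hn]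
    exact ⟨b1, b2, b3, b4⟩

theorem hasBSP_mkG {c : ℝ} {L : List Cd} (hL : L.Nodup) :
    HasBSP c (mkG L adjS) ↔ HasBal c L := by
  obtain ⟨e⟩ := mkG_iso hL adjS adjS_symm adjS_irrefl
  constructor
  · rintro ⟨A, B, C, D, h⟩
    exact ⟨_, _, _, _, isBalanced_map e h⟩
  · rintro ⟨A, B, C, D, h⟩
    exact ⟨_, _, _, _, isBalanced_map e.symm h⟩

theorem bipPerfect_mkG {L : List Cd} (hL : L.Nodup) : BipPerfect (mkG L adjS) := by
  obtain ⟨e⟩ := mkG_iso hL adjS adjS_symm adjS_irrefl
  have h : (toGraph (mkG L adjS)).Colorable 2 := (SG_colorable L).of_hom e.toHom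
  exact ⟨h, isPerfect_of_isBipartite h⟩

/-! ### The instances of a formula -/

/-- The edges of the graph of the formula, with universal vertices added. -/
def EE (φ : List Cl3) : List (ℕ × ℕ) :=
  (List.range (9 * φ.length) ×ˢ List.range (9 * φ.length)).filter fun e =>
    decide (e.1 < e.2) && (decide (3 * φ.length ≤ e.2) || decide (e ∈ gE φ))

theorem mem_EE {φ : List Cl3} {e : ℕ × ℕ} : e ∈ EE φ ↔
    e.1 < e.2 ∧ e.2 < 9 * φ.length ∧ (3 * φ.length ≤ e.2 ∨ e ∈ gE φ) := by
  obtain ⟨a, b⟩ := e
  simp only [EE, List.mem_filter, List.mem_product, List.mem_range, Bool.and_eq_true,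
    Bool.or_eq_true, decide_eq_true_eq]
  constructor
  · rintro ⟨⟨h1, h2⟩, h3, h4⟩
    exact ⟨h3, h2, h4⟩
  · rintro ⟨h1, h2, h3⟩
    exact ⟨⟨by omega, h2⟩, h1, h3⟩

theorem EE_nodup (φ : List Cl3) : (EE φ).Nodup :=
  (List.nodup_range.product List.nodup_range).filter _

theorem EE_length (φ : List Cl3) : (EE φ).length ≤ (9 * φ.length).choose 2 := by
  have h := Finset.card_le_card (s := (EE φ).toFinset)
    (t := pairsOf (Finset.range (9 * φ.length))) fun e he => by
      rw [List.mem_toFinset, mem_EE] at he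
      rw [mem_pairsOf, Finset.mem_range, Finset.mem_range]
      omega
  rwa [List.toFinset_card_of_nodup (EE_nodup φ), card_pairsOf, Finset.card_range] at h

theorem clique_EE (φ : List Cl3) :
    (∃ K ⊆ Finset.range (9 * φ.length), K.card = 7 * φ.length ∧ ∀ p ∈ pairsOf K, p ∈ EE φ) ↔
      SAT3 φ := by
  rw [← hasClique_g φ]
  constructor
  · rintro ⟨K, hK, hKc, hKE⟩
    set K0 := K.filter (fun v => v < 3 * φ.length) with hK0
    have h1 : φ.length ≤ K0.card := by
      have h2 : K ⊆ K0 ∪ (Finset.Ico (3 * φ.length) (9 * φ.length)) := by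
        intro v hv
        rw [Finset.mem_union, hK0, Finset.mem_filter, Finset.mem_Ico]
        have := Finset.mem_range.1 (hK hv)
        by_cases h : v < 3 * φ.length
        · exact Or.inl ⟨hv, h⟩
        · exact Or.inr ⟨by omega, this⟩
      have h3 := (Finset.card_le_card h2).trans (Finset.card_union_le _ _)
      rw [Nat.card_Ico] at h3
      omega
    obtain ⟨K1, hK1, hK1c⟩ := Finset.exists_subset_card_eq h1
    refine ⟨K1, ?_, hK1c, ?_⟩
    · intro v hv
      rw [gV_eq, List.mem_range]
      exact (Finset.mem_filter.1 (hK1 hv)).2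
    · have key : ∀ u ∈ K1, ∀ v ∈ K1, u < v → (u, v) ∈ gE φ := by
        intro u hu v hv huv
        have hu' := Finset.mem_filter.1 (hK1 hu)
        have hv' := Finset.mem_filter.1 (hK1 hv)
        have := mem_EE.1 (hKE (u, v) (mem_pairsOf.2 ⟨hu'.1, hv'.1, huv⟩))
        rcases this.2.2 with h | h
        · simp only at h
          omega
        · exact h
      intro u hu v hv huv
      rcases lt_or_gt_of_ne huv with h | h
      · exact Or.inl (key u hu v hv h)
      · exact Or.inr (key v hv u hu h)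
  · rintro ⟨K, hK, hKc, hKE⟩
    have hK3 : ∀ v ∈ K, v < 3 * φ.length := by
      intro v hv
      have := hK v hv
      rwa [gV_eq, List.mem_range] at this
    refine ⟨K ∪ Finset.Ico (3 * φ.length) (9 * φ.length), ?_, ?_, ?_⟩
    · intro v hv
      rw [Finset.mem_range]
      rcases Finset.mem_union.1 hv with h | h
      · have := hK3 v h
        omega
      · exact (Finset.mem_Ico.1 h).2
    · rw [Finset.card_union_of_disjoint, hKc, Nat.card_Ico]
      · omega
      · rw [Finset.disjoint_left]
        intro v h1 h2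
        have := hK3 v h1
        have := (Finset.mem_Ico.1 h2).1
        omega
    · intro p hp
      rw [mem_pairsOf, Finset.mem_union, Finset.mem_union, Finset.mem_Ico, Finset.mem_Ico] at hp
      obtain ⟨h1, h2, h3⟩ := hp
      rw [mem_EE]
      refine ⟨h3, ?_, ?_⟩
      · rcases h2 with h | h
        · have := hK3 _ h
          omega
        · exact h.2
      · rcases h2 with h | h
        · right
          have h5 : p.1 ∈ K := by
            rcases h1 with h4 | h4
            · exact h4
            · have := hK3 _ h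
              omega
          rcases hKE _ h5 _ h h3.ne with h6 | h6
          · exact h6
          · exact absurd (gE_lt h6) (by omega)
        · exact Or.inl h.1

/-- The size of the complete bipartite graph looked for. -/
def tt (φ : List Cl3) : ℕ := 7 * φ.length * (7 * φ.length - 1) / 2

theorem tt_eq (φ : List Cl3) : tt φ = (7 * φ.length).choose 2 := (Nat.choose_two_right _).symm

/-- The main instance, with `N` vertices. -/
def inst (N : ℕ) (φ : List Cl3) : PG :=
  mkG (HL (9 * φ.length) (tt φ - 2 * φ.length)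
    (N - (9 * φ.length + (tt φ - 2 * φ.length) + (EE φ).length)) (EE φ)) adjS

/-- The calibration instance, with `N` vertices. -/
def cal (N s : ℕ) : PG := mkG (CL s (N - 2 * s)) adjS

theorem inst_spec {c : ℝ} (hc : 4 ≤ c) {N : ℕ} {φ : List Cl3} (hφ : 2 ≤ φ.length)
    (hN : (N : ℝ) ≤ c * tt φ) (hN1 : c * tt φ < N + 1) : HasBSP c (inst N φ) ↔ SAT3 φ := by
  have h7 : 2 * (7 * φ.length).choose 2 = 7 * φ.length * (7 * φ.length - 1) := by
    rw [Nat.choose_two_right, Nat.mul_div_cancel' (Nat.even_mul_pred_self _).two_dvd]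
  have h9 : 2 * (9 * φ.length).choose 2 = 9 * φ.length * (9 * φ.length - 1) := by
    rw [Nat.choose_two_right, Nat.mul_div_cancel' (Nat.even_mul_pred_self _).two_dvd]
  obtain ⟨m, hm⟩ : ∃ m, φ.length = m + 2 := ⟨φ.length - 2, by omega⟩
  have hlen := EE_length φ
  have h7' : 2 * (7 * φ.length).choose 2 = (7 * m + 14) * (7 * m + 13) := by
    rw [h7, hm]
    congr 1
  have h9' : 2 * (9 * φ.length).choose 2 = (9 * m + 18) * (9 * m + 17) := by
    rw [h9, hm]
    congr 1
  have hge : 2 * φ.length ≤ (7 * φ.length).choose 2 := by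
    have : (7 * m + 14) * (7 * m + 13) ≥ 4 * (m + 2) := by nlinarith
    omega
  rw [tt_eq] at hN hN1
  unfold inst
  rw [hasBSP_mkG (HL_nodup (EE_nodup φ)), ← clique_EE φ, tt_eq]
  refine hasBal_HL hc (EE_nodup φ) (fun e he => ?_) (by omega) (by omega) ?_ hN hN1
  · have := mem_EE.1 he
    exact ⟨this.1, this.2.1⟩
  · have h10 : 2 * (9 * φ.length).choose 2 + 14 * φ.length ≤ 4 * (7 * φ.length).choose 2 := by
      have : (9 * m + 18) * (9 * m + 17) + 14 * (m + 2) ≤ 2 * ((7 * m + 14) * (7 * m + 13)) := by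
        nlinarith
      omega
    omega

theorem cal_spec {c : ℝ} (hc : 4 ≤ c) {s N : ℕ} (hs : 0 < s) (hN : 4 * s ≤ N) :
    HasBSP c (cal N s) ↔ (N : ℝ) ≤ c * s := by
  unfold cal
  rw [hasBSP_mkG CL_nodup, hasBal_CL hc hs hN]

theorem inst_bip (N : ℕ) (φ : List Cl3) : BipPerfect (inst N φ) :=
  bipPerfect_mkG (HL_nodup (EE_nodup φ))

theorem cal_bip (N s : ℕ) : BipPerfect (cal N s) := bipPerfect_mkG CL_nodup

/-! ### Running time -/

theorem half_poly : NPC.Poly (fun p : Cd × Cd => half p.1 p.2) := by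
  unfold half
  fun_prop

theorem adjS_poly {α : Type} [TEnc α] :
    NPC.Poly (fun p : α × Cd × Cd => adjS p.2.1 p.2.2) := by
  have h1 : NPC.Poly (fun p : α × Cd × Cd => half p.2.1 p.2.2) :=
    half_poly.comp (f := fun p : α × Cd × Cd => (p.2.1, p.2.2)) (by fun_prop)
  have h2 : NPC.Poly (fun p : α × Cd × Cd => half p.2.2 p.2.1) :=
    half_poly.comp (f := fun p : α × Cd × Cd => (p.2.2, p.2.1)) (by fun_prop)
  unfold adjS
  exact NPC.Poly.or h1 h2

theorem blk_poly {α : Type} [TEnc α] (a : ℕ) {n : α → ℕ} (hn : UPoly n) :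
    NPC.Poly (fun x => blk a (n x)) :=
  NPC.Poly.map (F := fun (_ : α) (i : ℕ) => ((a, i, 0) : Cd)) hn.range (by fun_prop)

theorem EE_poly : NPC.Poly EE := by
  have h1 : NPC.Poly (fun φ : List Cl3 => List.range (9 * φ.length)) :=
    (UPoly.mul (UPoly.const 9) (UPoly.length NPC.Poly.id)).range
  have h2 : NPC.Poly (fun p : List Cl3 × (ℕ × ℕ) => gE p.1) :=
    gE_poly.comp (f := fun p : List Cl3 × (ℕ × ℕ) => p.1) (by fun_prop)
  unfold EE
  refine NPC.Poly.filter (l := fun φ : List Cl3 =>
      List.range (9 * φ.length) ×ˢ List.range (9 * φ.length))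
    (p := fun (φ : List Cl3) (e : ℕ × ℕ) =>
      decide (e.1 < e.2) && (decide (3 * φ.length ≤ e.2) || decide (e ∈ gE φ))) (by fun_prop) ?_
  have h3 : NPC.Poly (fun p : List Cl3 × (ℕ × ℕ) => decide (p.2 ∈ gE p.1)) :=
    (NPC.Poly.decide_mem (NPC.Poly.snd NPC.Poly.id) h2).congr fun p => by
      simp only [decide_eq_decide]
  have h4 : NPC.Poly (fun p : List Cl3 × (ℕ × ℕ) => decide (3 * p.1.length ≤ p.2.2)) := by
    fun_prop
  have h5 : NPC.Poly (fun p : List Cl3 × (ℕ × ℕ) => decide (p.2.1 < p.2.2)) := by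
    fun_prop
  exact NPC.Poly.and h5 (NPC.Poly.or h4 h3)

theorem tt_poly : NPC.Poly tt := by
  unfold tt
  fun_prop

theorem tt_upoly : UPoly tt :=
  UPoly.of_le tt_poly (UPoly.mul (UPoly.mul (UPoly.const 7) (UPoly.length NPC.Poly.id))
    (UPoly.mul (UPoly.const 7) (UPoly.length NPC.Poly.id))) fun φ => by
    unfold tt
    refine (Nat.div_le_self _ _).trans (Nat.mul_le_mul_left _ ?_)
    simp

theorem inst_poly {α : Type} [TEnc α] {N : α → ℕ} {φ : α → List Cl3} (hN : UPoly N)
    (hφ : NPC.Poly φ) : NPC.Poly (fun a => inst (N a) (φ a)) := by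
  have h1 : UPoly (fun a => (φ a).length) := UPoly.length hφ
  have h2 : NPC.Poly (fun a => EE (φ a)) := EE_poly.comp hφ
  have h3 : NPC.Poly (fun a => tt (φ a)) := tt_poly.comp hφ
  have h4 : UPoly (fun a => tt (φ a) - 2 * (φ a).length) :=
    UPoly.of_le (by fun_prop) (tt_upoly.comp hφ) fun a => Nat.sub_le _ _
  have h5 : UPoly (fun a => N a - (9 * (φ a).length + (tt (φ a) - 2 * (φ a).length) +
      (EE (φ a)).length)) := by
    have h6 : NPC.Poly N := hN.toPoly
    exact UPoly.of_le (by fun_prop) hN fun a => Nat.sub_le _ _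
  have hL : NPC.Poly (fun a => HL (9 * (φ a).length) (tt (φ a) - 2 * (φ a).length)
    (N a - (9 * (φ a).length + (tt (φ a) - 2 * (φ a).length) + (EE (φ a)).length)) (EE (φ a))) := by
    unfold HL
    refine NPC.Poly.append (blk_poly 0 (UPoly.mul (UPoly.const 9) h1)) (NPC.Poly.append (blk_poly 1 h4)
      (NPC.Poly.append ?_ (blk_poly 3 h5)))
    exact NPC.Poly.map (F := fun (_ : α) (e : ℕ × ℕ) => ((2, e) : Cd)) h2 (by fun_prop)
  exact mkG_poly (adj := fun _ => adjS) hL adjS_poly

theorem cal_poly {α : Type} [TEnc α] {N s : α → ℕ} (hN : UPoly N) (hs : UPoly s) :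
    NPC.Poly (fun a => cal (N a) (s a)) := by
  have h1 : NPC.Poly N := hN.toPoly
  have h2 : NPC.Poly s := hs.toPoly
  have h3 : UPoly (fun a => N a - 2 * s a) := UPoly.of_le (by fun_prop) hN fun a => Nat.sub_le _ _
  have hL : NPC.Poly (fun a => CL (s a) (N a - 2 * s a)) := by
    unfold CL
    exact NPC.Poly.append (blk_poly 1 hs) (NPC.Poly.append (blk_poly 2 hs) (blk_poly 3 h3))
  exact mkG_poly (adj := fun _ => adjS) hL adjS_poly

end Pool.Agent.Q227.SK
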